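import Pool.Agent.Helper84.BA.Defs1

/-!
# Project BA, module B10: calculus of `JP`
-/

set_option autoImplicit false

namespace Pool.Agent.Helper94.BA

open Pool.Agent.Helper33.HM

universe u v

section

variable {B : Type u} [CompleteBooleanAlgebra B]

private theorem h28_memC_mono {C D : Finset ℕ → B} (h : C ≤ D) (x : ℕ → B) :
    memC x C ≤ memC x D := iInf_mono fun s => himp_le_himp_left (h s)

private theorem h28_PC_sub (x y : ℕ → B) (s : Finset ℕ) :
    (⨅ n, x n ⇨ y n) ⊓ PC x s ≤ PC y s := by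
  unfold PC
  refine le_iInf₂ fun n hn => ?_
  exact (inf_le_inf (iInf_le _ n) (iInf₂_le n hn)).trans himp_inf_le

private theorem h28_memC_sub (x y : ℕ → B) (C : Finset ℕ → B) :
    (⨅ n, x n ⇨ y n) ⊓ memC y C ≤ memC x C := by
  unfold memC
  refine le_iInf fun s => ?_
  rw [le_himp_iff]
  have h1 := h28_PC_sub x y s
  calc (⨅ n, x n ⇨ y n) ⊓ (⨅ s, PC y s ⇨ C s) ⊓ PC x s
      ≤ (PC y s ⇨ C s) ⊓ PC y s := by
        refine le_inf ?_ ?_
        · exact (inf_le_left.trans inf_le_right).trans (iInf_le _ s)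
        · exact le_trans (inf_le_inf_right _ inf_le_left) h1
    _ ≤ C s := himp_inf_le

private theorem h28_memC_anti {x y : ℕ → B} (h : x ≤ y) (C : Finset ℕ → B) :
    memC y C ≤ memC x C := by
  refine le_trans (le_inf ?_ le_rfl) (h28_memC_sub x y C)
  refine le_iInf fun n => ?_
  rw [le_himp_iff]
  exact inf_le_right.trans (h n)

private theorem h28_le_memC_PC (x y : ℕ → B) : (⨅ n, x n ⇨ y n) ≤ memC x (PC y) := by
  unfold memC
  refine le_iInf fun s => ?_
  rw [le_himp_iff]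
  exact h28_PC_sub x y s

private theorem h28_PC_insert (x : ℕ → B) (n : ℕ) (s : Finset ℕ) :
    PC x (insert n s) = x n ⊓ PC x s := by
  unfold PC
  rw [Finset.iInf_insert]

private theorem h28_PC_sup (x y : ℕ → B) (s : Finset ℕ) :
    PC (x ⊔ y) s ≤ ⨆ t : Finset ℕ, ⨆ _ : t ⊆ s, PC x t ⊓ PC y (s \ t) := by
  induction s using Finset.induction_on with
  | empty =>
    refine le_iSup₂_of_le ∅ (Finset.Subset.refl _) ?_
    unfold PC
    simp
  | insert n s hn ih =>
    rw [h28_PC_insert]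
    refine (inf_le_inf_left _ ih).trans ?_
    simp only [inf_iSup_eq, iSup_le_iff]
    intro t ht
    have hnt : n ∉ t := fun h => hn (ht h)
    change (x n ⊔ y n) ⊓ (PC x t ⊓ PC y (s \ t)) ≤ _
    rw [inf_sup_right]
    refine sup_le ?_ ?_
    · refine le_iSup₂_of_le (insert n t) (Finset.insert_subset_insert n ht) ?_
      have h1 : insert n s \ insert n t = s \ t := by
        ext k
        simp only [Finset.mem_sdiff, Finset.mem_insert]
        constructor
        · rintro ⟨h1 | h1, h2⟩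
          · exact absurd (Or.inl h1) h2
          · exact ⟨h1, fun h => h2 (Or.inr h)⟩
        · rintro ⟨h1, h2⟩
          refine ⟨Or.inr h1, ?_⟩
          rintro (h | h)
          · exact hn (h ▸ h1)
          · exact h2 h
      rw [h1, h28_PC_insert, inf_assoc]
    · refine le_iSup₂_of_le t (ht.trans (Finset.subset_insert _ _)) ?_
      have h1 : insert n s \ t = insert n (s \ t) := Finset.insert_sdiff_of_notMem _ hnt
      rw [h1, h28_PC_insert]
      exact le_inf (inf_le_right.trans inf_le_left)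
        (le_inf inf_le_left (inf_le_right.trans inf_le_right))

private theorem h28_memC_apply (x : ℕ → B) (C : Finset ℕ → B) (s : Finset ℕ) :
    memC x C ⊓ PC x s ≤ C s := by
  refine (inf_le_inf_right _ (iInf_le _ s)).trans himp_inf_le

private theorem h28_memC_joinC (C D : Finset ℕ → B) (x y : ℕ → B) :
    memC x C ⊓ memC y D ≤ memC (x ⊔ y) (joinC C D) := by
  change _ ≤ ⨅ s : Finset ℕ, PC (x ⊔ y) s ⇨ joinC C D s
  refine le_iInf fun s => ?_
  rw [le_himp_iff]
  refine (inf_le_inf_left _ (h28_PC_sup x y s)).trans ?_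
  simp only [inf_iSup_eq, iSup_le_iff]
  intro t ht
  unfold joinC
  refine le_iSup₂_of_le t ht (le_inf ?_ ?_)
  · refine le_trans (le_inf ?_ ?_) (h28_memC_apply x C t)
    · exact inf_le_left.trans inf_le_left
    · exact inf_le_right.trans inf_le_left
  · refine le_trans (le_inf ?_ ?_) (h28_memC_apply y D (s \ t))
    · exact inf_le_left.trans inf_le_right
    · exact inf_le_right.trans inf_le_right

variable {K K' : Set (Finset ℕ → B)} {A : (ℕ → B) → B}

theorem h28_le_JP {b : B} {x : ℕ → B} :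
    b ≤ JP K A x ↔ ∀ C ∈ K, ∀ l : List (ℕ → B),
      b ⊓ allV A l ⊓ memC (x ⊓ (usup l)ᶜ) C ≤ ⊥ := by
  unfold JP
  simp only [le_iInf_iff]
  refine forall_congr' fun C => forall_congr' fun _ => forall_congr' fun l => ?_
  rw [le_himp_iff, le_compl_iff_disjoint_right, disjoint_iff_inf_le]

theorem h28_JP_apply {C : Finset ℕ → B} (hC : C ∈ K) (l : List (ℕ → B)) (x : ℕ → B) :
    JP K A x ⊓ allV A l ⊓ memC (x ⊓ (usup l)ᶜ) C ≤ ⊥ :=
  h28_le_JP.1 le_rfl C hC l

theorem h28_allV_nil : allV A ([] : List (ℕ → B)) = ⊤ := rfl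

theorem h28_allV_cons (a : ℕ → B) (l : List (ℕ → B)) : allV A (a :: l) = A a ⊓ allV A l := rfl

theorem h28_allV_append (l l' : List (ℕ → B)) :
    allV A (l ++ l') = allV A l ⊓ allV A l' := by
  induction l with
  | nil => simp [h28_allV_nil]
  | cons a l ih => rw [List.cons_append, h28_allV_cons, h28_allV_cons, ih, inf_assoc]

theorem h28_usup_nil : usup ([] : List (ℕ → B)) = ⊥ := rfl

theorem h28_usup_cons (a : ℕ → B) (l : List (ℕ → B)) : usup (a :: l) = a ⊔ usup l := rfl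

theorem h28_usup_append (l l' : List (ℕ → B)) : usup (l ++ l') = usup l ⊔ usup l' := by
  induction l with
  | nil => simp [h28_usup_nil]
  | cons a l ih => rw [List.cons_append, h28_usup_cons, h28_usup_cons, ih, sup_assoc]

theorem h28_inf_usup_nil (x : ℕ → B) : x ⊓ (usup ([] : List (ℕ → B)))ᶜ = x := by
  rw [h28_usup_nil, compl_bot, inf_top_eq]

theorem JP_sub (K : Set (Finset ℕ → B)) (A : (ℕ → B) → B) (x y : ℕ → B) :
    (⨅ n, x n ⇨ y n) ⊓ JP K A x ≤ JP K A y := by
  rw [h28_le_JP]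
  intro C hC l
  have h1 : (⨅ n, x n ⇨ y n) ≤ ⨅ n, (x ⊓ (usup l)ᶜ) n ⇨ (y ⊓ (usup l)ᶜ) n := by
    refine iInf_mono fun n => ?_
    rw [le_himp_iff]
    refine le_inf ?_ ?_
    · refine le_trans ?_ (himp_inf_le : (x n ⇨ y n) ⊓ x n ≤ y n)
      exact inf_le_inf_left _ inf_le_left
    · exact inf_le_right.trans inf_le_right
  have h2 := h28_memC_sub (x ⊓ (usup l)ᶜ) (y ⊓ (usup l)ᶜ) C
  refine le_trans ?_ (h28_JP_apply (A := A) hC l x)
  refine le_inf (le_inf ?_ ?_) ?_
  · exact (inf_le_left.trans inf_le_left).trans inf_le_right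
  · exact inf_le_left.trans inf_le_right
  · refine le_trans ?_ h2
    exact le_inf (((inf_le_left.trans inf_le_left).trans inf_le_left).trans h1) inf_le_right

theorem JP_mono (K : Set (Finset ℕ → B)) (A : (ℕ → B) → B) {x y : ℕ → B} (h : x ≤ y) :
    JP K A x ≤ JP K A y := by
  refine le_trans ?_ (JP_sub K A x y)
  refine le_inf (le_iInf fun n => ?_) le_rfl
  rw [le_himp_iff]
  exact inf_le_right.trans (h n)

theorem JP_ext (K : Set (Finset ℕ → B)) (A : (ℕ → B) → B) (x y : ℕ → B) :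
    eqV x y ⊓ JP K A x ≤ JP K A y := by
  refine le_trans (inf_le_inf_right _ ?_) (JP_sub K A x y)
  exact iInf_mono fun n => inf_le_left

theorem h28_JP_compl (x : ℕ → B) :
    (JP K A x)ᶜ = ⨆ C : Finset ℕ → B, ⨆ _ : C ∈ K, ⨆ l : List (ℕ → B),
      allV A l ⊓ memC (x ⊓ (usup l)ᶜ) C := by
  unfold JP
  rw [compl_iInf]
  refine iSup_congr fun C => ?_
  rw [compl_iInf]
  refine iSup_congr fun _ => ?_
  rw [compl_iInf]
  refine iSup_congr fun l => ?_
  rw [himp_eq, compl_sup, compl_compl, compl_compl, inf_comm]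

theorem JP_sup (hK : SmallIdeal K) (A : (ℕ → B) → B) (x y : ℕ → B) :
    JP K A (x ⊔ y) ≤ JP K A x ⊔ JP K A y := by
  have key : JP K A (x ⊔ y) ⊓ ((JP K A x)ᶜ ⊓ (JP K A y)ᶜ) ≤ ⊥ := by
    rw [h28_JP_compl x, h28_JP_compl y]
    simp only [iSup_inf_eq, inf_iSup_eq, iSup_le_iff]
    intro D hD l' C hC l
    obtain ⟨E, hE, hCD⟩ := hK.dir C hC D hD
    have h1 := h28_memC_joinC C D (x ⊓ (usup l)ᶜ) (y ⊓ (usup l')ᶜ)
    have h2 := h28_memC_mono hCD ((x ⊓ (usup l)ᶜ) ⊔ (y ⊓ (usup l')ᶜ))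
    have h3 : (x ⊔ y) ⊓ (usup (l ++ l'))ᶜ ≤ (x ⊓ (usup l)ᶜ) ⊔ (y ⊓ (usup l')ᶜ) := by
      rw [h28_usup_append, compl_sup, inf_sup_right]
      exact sup_le_sup (inf_le_inf_left _ inf_le_left) (inf_le_inf_left _ inf_le_right)
    have h4 := h28_memC_anti h3 E
    refine le_trans ?_ (h28_JP_apply (A := A) hE (l ++ l') (x ⊔ y))
    rw [h28_allV_append]
    refine le_inf (le_inf inf_le_left (le_inf ?_ ?_)) ?_
    · exact (inf_le_right.trans inf_le_left).trans inf_le_left
    · exact (inf_le_right.trans inf_le_right).trans inf_le_left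
    · refine le_trans (le_inf ?_ ?_) (h1.trans (h2.trans h4))
      · exact (inf_le_right.trans inf_le_left).trans inf_le_right
      · exact (inf_le_right.trans inf_le_right).trans inf_le_right
  rw [← compl_sup] at key
  have := disjoint_iff_inf_le.2 key
  rwa [disjoint_compl_right_iff] at this

theorem JP_mem (A : (ℕ → B) → B) {C : Finset ℕ → B} (hC : C ∈ K) (x : ℕ → B) :
    memC x C ⊓ JP K A x = ⊥ := by
  have h := h28_JP_apply (A := A) hC [] x
  rw [h28_inf_usup_nil, h28_allV_nil, inf_top_eq, inf_comm] at h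
  exact le_bot_iff.1 h

theorem JP_fin (hK : SmallIdeal K) (A : (ℕ → B) → B) (x : ℕ → B) :
    JP K A x ⊓ finV x = ⊥ := by
  rw [eq_bot_iff]
  unfold finV
  rw [inf_iSup_eq]
  refine iSup_le fun m => ?_
  obtain ⟨C, hC, hm⟩ := hK.fin m
  have h1 := JP_mem A hC x
  rw [inf_comm] at h1
  rw [← h1]
  refine inf_le_inf_left _ (le_trans ?_ (h28_memC_mono hm x))
  refine le_trans ?_ (h28_le_memC_PC x (finN m))
  refine le_iInf fun n => ?_
  unfold finN
  by_cases hn : n < m
  · rw [if_pos hn, himp_top]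
    exact le_top
  · rw [if_neg hn, himp_bot]
    exact iInf₂_le n (not_lt.1 hn)

/-- `x` almost contained in `y`. -/
theorem JP_almost (hK : SmallIdeal K) (A : (ℕ → B) → B) (x y : ℕ → B) :
    finV (x ⊓ yᶜ) ⊓ JP K A x ≤ JP K A y := by
  have h1 : x ≤ y ⊔ (x ⊓ yᶜ) := by
    rw [sup_inf_left, sup_compl_eq_top, inf_top_eq]
    exact le_sup_right
  have h2 := (JP_mono K A h1).trans (JP_sup hK A y (x ⊓ yᶜ))
  have h3 := JP_fin hK A (x ⊓ yᶜ)
  calc finV (x ⊓ yᶜ) ⊓ JP K A x ≤ finV (x ⊓ yᶜ) ⊓ (JP K A y ⊔ JP K A (x ⊓ yᶜ)) :=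
        inf_le_inf_left _ h2
    _ = (finV (x ⊓ yᶜ) ⊓ JP K A y) ⊔ (JP K A (x ⊓ yᶜ) ⊓ finV (x ⊓ yᶜ)) := by
        rw [inf_sup_left, inf_comm (finV (x ⊓ yᶜ)) (JP K A (x ⊓ yᶜ))]
    _ ≤ JP K A y := by
        rw [h3, sup_bot_eq]
        exact inf_le_right

theorem JP_diff (K : Set (Finset ℕ → B)) (A : (ℕ → B) → B) (a x : ℕ → B) :
    A a ⊓ JP K A x ≤ JP K A (x ⊓ aᶜ) := by
  rw [h28_le_JP]
  intro C hC l
  have h := h28_JP_apply (A := A) hC (a :: l) x
  rw [h28_allV_cons, h28_usup_cons, compl_sup, ← inf_assoc x] at h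
  refine le_trans ?_ h
  refine le_inf (le_inf ?_ (le_inf ?_ ?_)) ?_
  · exact (inf_le_left.trans inf_le_left).trans inf_le_right
  · exact (inf_le_left.trans inf_le_left).trans inf_le_left
  · exact inf_le_left.trans inf_le_right
  · exact inf_le_right

theorem JP_ref (h : Ref K K') (A : (ℕ → B) → B) (x : ℕ → B) : JP K' A x ≤ JP K A x := by
  rw [h28_le_JP]
  intro C hC l
  obtain ⟨D, hD, hCD⟩ := h C hC
  refine le_trans ?_ (h28_JP_apply (A := A) hD l x)
  exact inf_le_inf_left _ (h28_memC_mono hCD _)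

theorem JP_allV (K : Set (Finset ℕ → B)) (A : (ℕ → B) → B) (l : List (ℕ → B)) (x : ℕ → B) :
    allV A l ⊓ JP K A x ≤ JP K A (x ⊓ (usup l)ᶜ) := by
  induction l with
  | nil =>
    rw [h28_inf_usup_nil]
    exact inf_le_right
  | cons a l ih =>
    rw [h28_allV_cons, h28_usup_cons, compl_sup, inf_assoc]
    refine (inf_le_inf_left _ ih).trans ((JP_diff K A a _).trans ?_)
    rw [inf_assoc, inf_comm (usup l)ᶜ]

/-- Mixing: `x` on `b` and everything off `b`. -/
theorem JP_mix (K : Set (Finset ℕ → B)) (A : (ℕ → B) → B) (htop : JP K A ⊤ = ⊤) (b : B)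
    (x : ℕ → B) (hx : b ≤ JP K A x) : JP K A (fun n => x n ⊔ bᶜ) = ⊤ := by
  rw [eq_top_iff, ← sup_compl_eq_top (x := b)]
  refine sup_le (hx.trans (JP_mono K A fun n => le_sup_left)) ?_
  refine le_trans ?_ (JP_sub K A ⊤ (fun n => x n ⊔ bᶜ))
  rw [htop, inf_top_eq]
  refine le_iInf fun n => ?_
  rw [le_himp_iff]
  exact inf_le_left.trans le_sup_right

end

end Pool.Agent.Helper94.BA
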